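import Pool.Agent.helper7.SC.Defs
import Mathlib.RingTheory.MvPowerSeries.Derivative
import Mathlib.RingTheory.Derivation.Basic

set_option autoImplicit false

/-!
# MP_21ad85_ag, module DER: derivations and differential operators on `R`
-/

namespace Pool.Agent.helper7.SC

open MvPolynomial Pool.Agent.helper5.NBS

theorem pd_eq_pderiv (k : Fin 2) (Φ : MvPowerSeries (Fin 2) ℂ) :
    pd k Φ = MvPowerSeries.pderiv ℂ k Φ := by
  ext n
  rw [MvPowerSeries.coeff_pderiv, mul_comm]
  rfl

theorem pd_add (k : Fin 2) (Φ Ψ : MvPowerSeries (Fin 2) ℂ) :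
    pd k (Φ + Ψ) = pd k Φ + pd k Ψ := by
  rw [pd_eq_pderiv, pd_eq_pderiv, pd_eq_pderiv, map_add]

theorem pd_mul (k : Fin 2) (Φ Ψ : MvPowerSeries (Fin 2) ℂ) :
    pd k (Φ * Ψ) = Φ * pd k Ψ + Ψ * pd k Φ := by
  rw [pd_eq_pderiv, pd_eq_pderiv, pd_eq_pderiv, Derivation.leibniz, smul_eq_mul, smul_eq_mul]

/-- iterated partial derivatives -/
noncomputable def pdw : List (Fin 2) → MvPowerSeries (Fin 2) ℂ → MvPowerSeries (Fin 2) ℂ
  | [], Φ => Φ
  | k :: w, Φ => pd k (pdw w Φ)

/-- chain rule -/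
theorem deriv_aeval {A : Type} [CommRing A] [Algebra ℂ A] (D : Derivation ℂ A A) {m : ℕ}
    (φ : Fin m → A) (p : MvPolynomial (Fin m) ℂ) :
    D (aeval φ p) = ∑ i, aeval φ (pderiv i p) * D (φ i) := by
  induction p using MvPolynomial.induction_on with
  | C a =>
    rw [aeval_C, Derivation.map_algebraMap]
    symm
    refine Finset.sum_eq_zero fun i _ => ?_
    rw [pderiv_C, map_zero, zero_mul]
  | add p q hp hq =>
    rw [map_add, map_add, hp, hq, ← Finset.sum_add_distrib]
    refine Finset.sum_congr rfl fun i _ => ?_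
    rw [map_add, map_add, add_mul]
  | mul_X p j hp =>
    rw [map_mul, aeval_X, Derivation.leibniz, hp, smul_eq_mul, smul_eq_mul, Finset.mul_sum]
    have h : ∀ i, aeval φ (pderiv i (p * X j)) * D (φ i) =
        φ j * (aeval φ (pderiv i p) * D (φ i)) +
          (if i = j then aeval φ p * D (φ j) else 0) := by
      intro i
      rw [pderiv_mul, pderiv_X, map_add, map_mul, map_mul, aeval_X]
      by_cases hij : i = j
      · subst hij
        rw [if_pos rfl, Pi.single_eq_same, map_one]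
        ring
      · rw [if_neg hij, Pi.single_eq_of_ne' hij, map_zero]
        ring
    rw [Finset.sum_congr rfl fun i _ => h i, Finset.sum_add_distrib, Finset.sum_ite_eq' Finset.univ j,
      if_pos (Finset.mem_univ j), add_comm]

/-- a derivation maps `m ^ (M + 1)` to `m ^ M` -/
theorem deriv_mem_pow {R : Type} [CommRing R] [Algebra ℂ R] (D : Derivation ℂ R R) (m : Ideal R)
    (M : ℕ) (F : R) (hF : F ∈ m ^ M) : D F ∈ m ^ (M - 1) := by
  induction M generalizing F with
  | zero => rw [Nat.zero_sub, pow_zero, Ideal.one_eq_top]; exact Submodule.mem_top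
  | succ M ih =>
    rw [Nat.add_sub_cancel]
    rw [pow_succ] at hF
    refine Submodule.mul_induction_on hF ?_ ?_
    · intro a ha b hb
      rw [Derivation.leibniz, smul_eq_mul, smul_eq_mul]
      refine add_mem (Ideal.mul_mem_right _ _ ha) ?_
      rcases Nat.eq_zero_or_pos M with h0 | h0
      · subst h0
        rw [pow_zero, Ideal.one_eq_top]; exact Submodule.mem_top
      · have h1 := ih a ha
        have h2 := Ideal.mul_mem_mul h1 hb
        rw [← pow_succ, Nat.sub_add_cancel h0] at h2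
        rw [mul_comm]
        exact h2
    · intro a b ha hb
      rw [map_add]
      exact add_mem ha hb

/-- the operators -/
noncomputable def opE {R : Type} [CommRing R] [Algebra ℂ R] (δ : R)
    (D : Fin 2 → Derivation ℂ R R) : List (Fin 2) → R →ₗ[ℂ] R
  | [] => LinearMap.id
  | k :: w => LinearMap.mulLeft ℂ δ ∘ₗ (D k).toLinearMap ∘ₗ opE δ D w -
      LinearMap.mulLeft ℂ ((2 * w.length : ℕ) • D k δ) ∘ₗ opE δ D w

theorem opE_cons {R : Type} [CommRing R] [Algebra ℂ R] (δ : R)
    (D : Fin 2 → Derivation ℂ R R) (k : Fin 2) (w : List (Fin 2)) (F : R) :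
    opE δ D (k :: w) F = δ * D k (opE δ D w F) -
      ((2 * w.length : ℕ) : R) * D k δ * opE δ D w F := by
  rw [← nsmul_eq_mul]
  rfl

theorem opE_mem {R : Type} [CommRing R] [Algebra ℂ R] (δ : R)
    (D : Fin 2 → Derivation ℂ R R) (m : Ideal R) (w : List (Fin 2)) (M : ℕ) (F : R)
    (hF : F ∈ m ^ M) : opE δ D w F ∈ m ^ (M - w.length) := by
  induction w with
  | nil => exact hF
  | cons k w ih =>
    rw [opE_cons, List.length_cons, ← Nat.sub_sub]
    refine sub_mem (Ideal.mul_mem_left _ _ (deriv_mem_pow _ _ _ _ ih))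
      (Ideal.mul_mem_left _ _ (Ideal.pow_le_pow_right (Nat.sub_le _ _) ih))

theorem opE_tau {R : Type} [CommRing R] [Algebra ℂ R]
    (τ : R →ₐ[ℂ] MvPowerSeries (Fin 2) ℂ) (δ : R) (D : Fin 2 → Derivation ℂ R R)
    (hD : ∀ k F, τ (D k F) = τ δ * pd k (τ F)) (w : List (Fin 2)) (F : R) :
    τ (opE δ D w F) = τ δ ^ (2 * w.length) * pdw w (τ F) := by
  induction w with
  | nil =>
    show τ F = τ δ ^ (2 * 0) * τ F
    rw [mul_zero, pow_zero, one_mul]
  | cons k w ih =>
    rw [opE_cons, map_sub, map_mul, hD, map_mul, map_mul, map_natCast, hD, ih, pd_mul,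
      List.length_cons]
    have h : τ δ * pd k (τ δ ^ (2 * w.length)) =
        ((2 * w.length : ℕ) : MvPowerSeries (Fin 2) ℂ) * τ δ ^ (2 * w.length) * pd k (τ δ) := by
      rw [pd_eq_pderiv, pd_eq_pderiv, Derivation.leibniz_pow]
      rcases Nat.eq_zero_or_pos (2 * w.length) with h0 | h0
      · rw [h0]; simp
      · have h1 : τ δ ^ (2 * w.length) = τ δ * τ δ ^ (2 * w.length - 1) := by
          rw [← pow_succ', Nat.sub_add_cancel h0]
        rw [smul_eq_mul, nsmul_eq_mul, h1]
        ring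
    show _ = _ * pd k (pdw w (τ F))
    have h2 : 2 * (w.length + 1) = 2 * w.length + 2 := by ring
    rw [h2, pow_add]
    linear_combination (τ δ * pdw w (τ F)) * h

theorem exists_der {R : Type} [CommRing R] [IsDomain R] [Algebra ℂ R] {n : ℕ} {x : Fin n → R}
    (hx : Algebra.adjoin ℂ (Set.range x) = ⊤) {h v : R}
    (τ : R →ₐ[ℂ] MvPowerSeries (Fin 2) ℂ) (hτ : Function.Injective τ)
    (hv : τ v = MvPowerSeries.X 0) (hh : τ h = MvPowerSeries.X 1)
    (g : Fin n → MvPolynomial (Fin 3) ℂ) (hg : ∀ l, aeval ![v, h, x l] (g l) = 0)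
    (k : Fin 2) : ∃ D : Derivation ℂ R R,
      ∀ F, τ (D F) = τ (∏ l, aeval ![v, h, x l] (pderiv 2 (g l))) * pd k (τ F) := by
  set δ : R := ∏ l, aeval ![v, h, x l] (pderiv 2 (g l)) with hδ
  -- the derivation preserves the range
  have key : ∀ F, ∃ G, τ G = τ δ * pd k (τ F) := by
    intro F
    have hF : F ∈ Algebra.adjoin ℂ (Set.range x) := by rw [hx]; exact Algebra.mem_top
    induction hF using Algebra.adjoin_induction with
    | mem F hF =>
      obtain ⟨l, rfl⟩ := hF
      -- chain rule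
      have h1 : pd k (τ (aeval ![v, h, x l] (g l))) = 0 := by
        rw [hg l, map_zero, pd_eq_pderiv, map_zero]
      have h2 : ∀ p : MvPolynomial (Fin 3) ℂ, τ (aeval ![v, h, x l] p) =
          aeval (fun i => τ (![v, h, x l] i)) p := fun p => by
        rw [← MvPolynomial.comp_aeval_apply]
      rw [h2, pd_eq_pderiv, deriv_aeval, Fin.sum_univ_three, ← h2, ← h2, ← h2,
        ← pd_eq_pderiv, ← pd_eq_pderiv, ← pd_eq_pderiv] at h1
      simp only [Matrix.cons_val_zero, Matrix.cons_val_one, Matrix.cons_val_two,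
        Matrix.tail_cons, Matrix.head_cons] at h1
      rw [hv, hh] at h1
      obtain ⟨q, hq⟩ : ∃ q : MvPolynomial (Fin 3) ℂ,
          τ (aeval ![v, h, x l] (pderiv 2 (g l))) * pd k (τ (x l)) =
            - τ (aeval ![v, h, x l] q) := by
        fin_cases k
        · refine ⟨pderiv 0 (g l), ?_⟩
          have e0 : pd (0 : Fin 2) (MvPowerSeries.X 0) = 1 := by
            rw [pd_eq_pderiv, MvPowerSeries.pderiv_X_self]
          have e1 : pd (0 : Fin 2) (MvPowerSeries.X 1) = 0 := by
            rw [pd_eq_pderiv, MvPowerSeries.pderiv_X_of_ne (by decide)]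
          simp only [Fin.zero_eta, Fin.isValue] at h1 ⊢
          rw [e0, e1] at h1
          linear_combination h1
        · refine ⟨pderiv 1 (g l), ?_⟩
          have e0 : pd (1 : Fin 2) (MvPowerSeries.X 0) = 0 := by
            rw [pd_eq_pderiv, MvPowerSeries.pderiv_X_of_ne (by decide)]
          have e1 : pd (1 : Fin 2) (MvPowerSeries.X 1) = 1 := by
            rw [pd_eq_pderiv, MvPowerSeries.pderiv_X_self]
          simp only [Fin.mk_one, Fin.isValue] at h1 ⊢
          rw [e0, e1] at h1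
          linear_combination h1
      refine ⟨-((∏ j ∈ Finset.univ.erase l, aeval ![v, h, x j] (pderiv 2 (g j))) *
        aeval ![v, h, x l] q), ?_⟩
      have h3 : δ = (∏ j ∈ Finset.univ.erase l, aeval ![v, h, x j] (pderiv 2 (g j))) *
          aeval ![v, h, x l] (pderiv 2 (g l)) := by
        rw [hδ, ← Finset.prod_erase_mul _ _ (Finset.mem_univ l)]
      rw [h3, map_neg, map_mul, map_mul, mul_assoc, hq]
      ring
    | algebraMap c =>
      refine ⟨0, ?_⟩
      rw [AlgHom.commutes, pd_eq_pderiv, Derivation.map_algebraMap, mul_zero, map_zero]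
    | add F F' _ _ h1 h2 =>
      obtain ⟨G, hG⟩ := h1
      obtain ⟨G', hG'⟩ := h2
      refine ⟨G + G', ?_⟩
      rw [map_add, hG, hG', map_add, pd_add, mul_add]
    | mul F F' _ _ h1 h2 =>
      obtain ⟨G, hG⟩ := h1
      obtain ⟨G', hG'⟩ := h2
      refine ⟨F * G' + F' * G, ?_⟩
      rw [map_add, map_mul, map_mul, hG, hG', map_mul, pd_mul]
      ring
  choose D hD using key
  refine ⟨⟨⟨⟨D, ?_⟩, ?_⟩, ?_, ?_⟩, hD⟩
  · intro a b
    apply hτ
    rw [hD, map_add, map_add, pd_add, hD, hD, mul_add]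
  · intro c a
    apply hτ
    show τ (D (c • a)) = τ (c • D a)
    rw [hD, map_smul, map_smul, hD, pd_eq_pderiv, pd_eq_pderiv, Derivation.map_smul,
      mul_smul_comm]
  · apply hτ
    show τ (D 1) = _
    rw [hD, map_one, pd_eq_pderiv, Derivation.map_one_eq_zero, mul_zero, map_zero]
  · intro a b
    apply hτ
    show τ (D (a * b)) = τ (a • D b + b • D a)
    rw [hD, map_mul, pd_mul, smul_eq_mul, smul_eq_mul, map_add, map_mul, map_mul, hD, hD]
    ring

theorem exists_ops {R : Type} [CommRing R] [IsDomain R] [Algebra ℂ R] {n : ℕ} {x : Fin n → R}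
    (hx : Algebra.adjoin ℂ (Set.range x) = ⊤) {h v : R}
    (τ : R →ₐ[ℂ] MvPowerSeries (Fin 2) ℂ) (hτ : Function.Injective τ)
    (hv : τ v = MvPowerSeries.X 0) (hh : τ h = MvPowerSeries.X 1)
    (g : Fin n → MvPolynomial (Fin 3) ℂ) (hg : ∀ l, aeval ![v, h, x l] (g l) = 0)
    (hg' : ∀ l, aeval ![v, h, x l] (pderiv 2 (g l)) ≠ 0) :
    ∃ (δ : R) (E : List (Fin 2) → R →ₗ[ℂ] R), δ ≠ 0 ∧
      (∀ w F, τ (E w F) = τ δ ^ (2 * w.length) * pdw w (τ F)) ∧
      ∀ (m : Ideal R) (w : List (Fin 2)) (M : ℕ) (F : R), F ∈ m ^ M →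
        E w F ∈ m ^ (M - w.length) := by
  choose D hD using fun k => exists_der hx τ hτ hv hh g hg k
  exact ⟨_, opE _ D, Finset.prod_ne_zero_iff.2 fun l _ => hg' l, opE_tau τ _ D hD,
    fun m w M F hF => opE_mem _ D m w M F hF⟩

end Pool.Agent.helper7.SC
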